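import Mathlib

/-!
# Max-sum matchings whose induced closed balls have only one common point

In dimension `6` there is a set of six points and a max-sum matching of it for which the closed
balls induced by the three pairs meet in a single point, so no ball of positive radius is contained
in their intersection.
-/

open Set

namespace Pool.Agent.Results.MP_70625d_co.NoCommonBall

/-- `σ` pairs up the indices: it is an involution without fixed points. -/
def IsMatching {n : ℕ} (σ : Equiv.Perm (Fin (2 * n))) : Prop :=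
  (∀ i, σ (σ i) = i) ∧ ∀ i, σ i ≠ i

/-- The matching `σ` of the points `p i` is a max-sum matching. (Every pair is counted twice in
the sums over `i`.) -/
def IsMaxSum {d n : ℕ} (p : Fin (2 * n) → EuclideanSpace ℝ (Fin d))
    (σ : Equiv.Perm (Fin (2 * n))) : Prop :=
  IsMatching σ ∧ ∀ τ : Equiv.Perm (Fin (2 * n)), IsMatching τ →
    ∑ i, dist (p i) (p (τ i)) ≤ ∑ i, dist (p i) (p (σ i))

/-- The minimum distance between two different points. -/
noncomputable def minDist {d n : ℕ} (p : Fin (2 * n) → EuclideanSpace ℝ (Fin d)) : ℝ :=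
  sInf {t | ∃ i j, i ≠ j ∧ t = dist (p i) (p j)}

/-- The closed ball having the segment `xy` as a diameter. -/
def inducedBall {d : ℕ} (x y : EuclideanSpace ℝ (Fin d)) : Set (EuclideanSpace ℝ (Fin d)) :=
  Metric.closedBall (midpoint ℝ x y) (dist x y / 2)

/-- Integer coordinates of the six points: rows `0,1,2` are `a_i = (49 e_i, 7 e_i)`, rows `3,4,5`
are `b_i = (e_i, -7 e_i)` where `e_0 = (2,-1,-1)` and its cyclic shifts. -/
def P : Fin 6 → Fin 6 → ℤ :=
  ![![98, -49, -49, 14, -7, -7], ![-49, 98, -49, -7, 14, -7], ![-49, -49, 98, -7, -7, 14],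
    ![2, -1, -1, -14, 7, 7], ![-1, 2, -1, 7, -14, 7], ![-1, -1, 2, 7, 7, -14]]

noncomputable def pt (i : Fin 6) : EuclideanSpace ℝ (Fin 6) := WithLp.toLp 2 (fun k => (P i k : ℝ))

theorem dist_pt (i j : Fin 6) :
    dist (pt i) (pt j) = Real.sqrt ((∑ k, (P i k - P j k) ^ 2 : ℤ) : ℝ) := by
  rw [EuclideanSpace.dist_eq]
  congr 1
  push_cast
  apply Finset.sum_congr rfl
  intro k _
  rw [Real.dist_eq, sq_abs]
  rfl

/-- class of a point: `0` for the `a`s, `1` for the `b`s -/
def cls (i : Fin 6) : ℕ := if i.val < 3 then 0 else 1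

theorem intdist : ∀ i j : Fin 6, i ≠ j →
    (∑ k, (P i k - P j k) ^ 2 : ℤ) =
      (if cls i + cls j = 0 then 44100 else if cls i + cls j = 1 then 15000 else 900) := by
  decide

def sw : Equiv.Perm (Fin 6) :=
  Function.Involutive.toPerm (fun i => i + 3) (by intro i; revert i; decide)

noncomputable def w (i : Fin 6) : ℝ := if cls i = 0 then 105 else Real.sqrt 15000 - 105

theorem sq1 : Real.sqrt 44100 = 210 := by
  rw [show (44100 : ℝ) = 210 ^ 2 by norm_num]
  exact Real.sqrt_sq (by norm_num)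

theorem sq2 : Real.sqrt 900 = 30 := by
  rw [show (900 : ℝ) = 30 ^ 2 by norm_num]
  exact Real.sqrt_sq (by norm_num)

theorem sq3 : (120 : ℝ) ≤ Real.sqrt 15000 := by
  apply Real.le_sqrt_of_sq_le
  norm_num

theorem dist_le (i j : Fin 6) (h : i ≠ j) : dist (pt i) (pt j) ≤ w i + w j := by
  rw [dist_pt, intdist i j h]
  unfold w
  have h1 := sq1
  have h2 := sq2
  have h3 := sq3
  have hi : cls i = 0 ∨ cls i = 1 := by unfold cls; split_ifs <;> simp
  have hj : cls j = 0 ∨ cls j = 1 := by unfold cls; split_ifs <;> simp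
  rcases hi with hi | hi <;> rcases hj with hj | hj <;> simp [hi, hj] <;> linarith

theorem dist_sw (i : Fin 6) : dist (pt i) (pt (sw i)) = w i + w (sw i) := by
  have hne : i ≠ sw i := by revert i; decide
  rw [dist_pt, intdist i _ hne]
  have hc : (cls i = 0 ∧ cls (sw i) = 1) ∨ (cls i = 1 ∧ cls (sw i) = 0) := by revert i; decide
  unfold w
  rcases hc with ⟨h1, h2⟩ | ⟨h1, h2⟩ <;> simp [h1, h2]

theorem ball_inner {d : ℕ} (x a b : EuclideanSpace ℝ (Fin d))
    (h : x ∈ inducedBall a b) : inner ℝ (x - a) (x - b) ≤ 0 := by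
  have hm : x - midpoint ℝ a b = (1/2 : ℝ) • ((x - a) + (x - b)) := by
    rw [midpoint_eq_smul_add, invOf_eq_inv]
    module
  have hd : a - b = (x - b) - (x - a) := by abel
  rw [inducedBall, Metric.mem_closedBall, dist_eq_norm, dist_eq_norm, hm, hd] at h
  rw [norm_smul] at h
  generalize x - a = u at *
  generalize x - b = v at *
  have h2 : ‖u + v‖ ≤ ‖v - u‖ := by
    have : ‖(1/2 : ℝ)‖ = 1/2 := by norm_num
    rw [this] at h
    linarith
  have h3 : ‖u + v‖ ^ 2 ≤ ‖v - u‖ ^ 2 := by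
    have := norm_nonneg (u + v)
    nlinarith
  rw [norm_add_sq_real, norm_sub_sq_real] at h3
  have h4 : inner ℝ v u = inner ℝ u v := real_inner_comm u v
  linarith

theorem pt_injective : Function.Injective pt := by
  intro i j hij
  by_contra hne
  have h0 : dist (pt i) (pt j) = 0 := by rw [hij, dist_self]
  rw [dist_pt, intdist i j hne] at h0
  have h1 := sq1
  have h2 := sq2
  have h3 := sq3
  split_ifs at h0
  · norm_num at h0
  · push_cast at h0; linarith
  · norm_num at h0

theorem sw_isMaxSum : IsMaxSum (n := 3) pt sw := by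
  refine ⟨⟨by decide, by decide⟩, ?_⟩
  rintro τ ⟨_, hτ⟩
  have e1 : ∑ i, dist (pt i) (pt (τ i)) ≤ ∑ i, (w i + w (τ i)) :=
    Finset.sum_le_sum fun i _ => dist_le i (τ i) (fun h => hτ i h.symm)
  have e2 : ∑ i, dist (pt i) (pt (sw i)) = ∑ i, (w i + w (sw i)) :=
    Finset.sum_congr rfl fun i _ => dist_sw i
  have e3 : ∑ i, w (τ i) = ∑ i, w i := Equiv.sum_comp τ w
  have e4 : ∑ i, w (sw i) = ∑ i, w i := Equiv.sum_comp sw w
  have e5 : ∑ i, (w i + w (τ i)) = ∑ i, w i + ∑ i, w (τ i) := Finset.sum_add_distrib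
  have e6 : ∑ i, (w i + w (sw i)) = ∑ i, w i + ∑ i, w (sw i) := Finset.sum_add_distrib
  show ∑ i : Fin 6, dist (pt i) (pt (τ i)) ≤ ∑ i : Fin 6, dist (pt i) (pt (sw i))
  rw [e2, e6, e4]
  rw [e5, e3] at e1
  exact e1

/-- The common points of the induced closed balls: only the origin. -/
theorem inter_eq (x : EuclideanSpace ℝ (Fin 6)) (hx : ∀ i, x ∈ inducedBall (pt i) (pt (sw i))) :
    x = 0 := by
  have h0 := ball_inner _ _ _ (hx 0)
  have h1 := ball_inner _ _ _ (hx 1)
  have h2 := ball_inner _ _ _ (hx 2)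
  have s0 : sw 0 = 3 := by decide
  have s1 : sw 1 = 4 := by decide
  have s2 : sw 2 = 5 := by decide
  rw [s0] at h0
  rw [s1] at h1
  rw [s2] at h2
  simp only [PiLp.inner_apply, Fin.sum_univ_six, pt, P] at h0 h1 h2
  simp at h0 h1 h2
  have hsum : x 0 ^ 2 + x 1 ^ 2 + x 2 ^ 2 + x 3 ^ 2 + x 4 ^ 2 + x 5 ^ 2 ≤ 0 := by
    nlinarith [sq_nonneg (x 0), sq_nonneg (x 1), sq_nonneg (x 2), sq_nonneg (x 3),
      sq_nonneg (x 4), sq_nonneg (x 5)]
  have k0 : x 0 = 0 := by
    have : x 0 ^ 2 ≤ 0 := by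
      nlinarith [sq_nonneg (x 1), sq_nonneg (x 2), sq_nonneg (x 3), sq_nonneg (x 4),
        sq_nonneg (x 5)]
    exact pow_eq_zero_iff (two_ne_zero) |>.1 (le_antisymm this (sq_nonneg _))
  have k1 : x 1 = 0 := by
    have : x 1 ^ 2 ≤ 0 := by
      nlinarith [sq_nonneg (x 0), sq_nonneg (x 2), sq_nonneg (x 3), sq_nonneg (x 4),
        sq_nonneg (x 5)]
    exact pow_eq_zero_iff (two_ne_zero) |>.1 (le_antisymm this (sq_nonneg _))
  have k2 : x 2 = 0 := by
    have : x 2 ^ 2 ≤ 0 := by
      nlinarith [sq_nonneg (x 0), sq_nonneg (x 1), sq_nonneg (x 3), sq_nonneg (x 4),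
        sq_nonneg (x 5)]
    exact pow_eq_zero_iff (two_ne_zero) |>.1 (le_antisymm this (sq_nonneg _))
  have k3 : x 3 = 0 := by
    have : x 3 ^ 2 ≤ 0 := by
      nlinarith [sq_nonneg (x 0), sq_nonneg (x 1), sq_nonneg (x 2), sq_nonneg (x 4),
        sq_nonneg (x 5)]
    exact pow_eq_zero_iff (two_ne_zero) |>.1 (le_antisymm this (sq_nonneg _))
  have k4 : x 4 = 0 := by
    have : x 4 ^ 2 ≤ 0 := by
      nlinarith [sq_nonneg (x 0), sq_nonneg (x 1), sq_nonneg (x 2), sq_nonneg (x 3),
        sq_nonneg (x 5)]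
    exact pow_eq_zero_iff (two_ne_zero) |>.1 (le_antisymm this (sq_nonneg _))
  have k5 : x 5 = 0 := by
    have : x 5 ^ 2 ≤ 0 := by
      nlinarith [sq_nonneg (x 0), sq_nonneg (x 1), sq_nonneg (x 2), sq_nonneg (x 3),
        sq_nonneg (x 4)]
    exact pow_eq_zero_iff (two_ne_zero) |>.1 (le_antisymm this (sq_nonneg _))
  ext i
  fin_cases i
  · exact k0
  · exact k1
  · exact k2
  · exact k3
  · exact k4
  · exact k5

theorem minDist_pos : 0 < minDist (n := 3) pt := by
  have hle : (30 : ℝ) ≤ minDist (n := 3) pt := by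
    apply le_csInf
    · exact ⟨_, (0 : Fin 6), (1 : Fin 6), by decide, rfl⟩
    · rintro t ⟨i, j, hij, rfl⟩
      show (30 : ℝ) ≤ dist (pt i) (pt j)
      rw [dist_pt, intdist i j hij]
      have h1 := sq1
      have h2 := sq2
      have h3 := sq3
      split_ifs
      · push_cast; linarith
      · push_cast; linarith
      · push_cast; linarith
  linarith

/-- **Main result.** In some dimension there are a finite set of an even number of distinct points
(the points `p i`) and a max-sum matching of it such that, for every `ε > 0`, the intersection of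
the closed balls induced by the pairs contains no ball of radius `ε r`, `r` the minimum
distance. -/
theorem result : ∃ d : ℕ, 0 < d ∧ ∃ (n : ℕ) (p : Fin (2 * n) → EuclideanSpace ℝ (Fin d))
    (σ : Equiv.Perm (Fin (2 * n))), Function.Injective p ∧ 0 < minDist p ∧ IsMaxSum p σ ∧
      ∀ ε : ℝ, 0 < ε → ¬ ∃ c : EuclideanSpace ℝ (Fin d),
        Metric.ball c (ε * minDist p) ⊆ ⋂ i, inducedBall (p i) (p (σ i)) := by
  refine ⟨6, by norm_num, 3, pt, sw, pt_injective, minDist_pos, sw_isMaxSum, ?_⟩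
  rintro ε hε ⟨c, hc⟩
  have hr : 0 < ε * minDist (n := 3) pt := mul_pos hε minDist_pos
  have h1 : c = 0 := inter_eq c fun i => mem_iInter.1 (hc (Metric.mem_ball_self hr)) i
  set ρ := ε * minDist (n := 3) pt with hρ
  have h2 : c + EuclideanSpace.single 0 (ρ / 2) ∈ Metric.ball c ρ := by
    rw [Metric.mem_ball, dist_eq_norm, add_sub_cancel_left, PiLp.norm_single,
      Real.norm_eq_abs, abs_of_pos (by linarith)]
    linarith
  have h3 : c + EuclideanSpace.single 0 (ρ / 2) = 0 :=
    inter_eq _ fun i => mem_iInter.1 (hc h2) i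
  rw [h1, zero_add] at h3
  have := congrArg (fun x : EuclideanSpace ℝ (Fin 6) => x 0) h3
  simp at this
  linarith

end Pool.Agent.Results.MP_70625d_co.NoCommonBall
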